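import Pool.Agent.Helper26.PE.Beta

/-!
# PE-Fin1, part (a): the exceptional set of a small prime
-/

set_option autoImplicit false

namespace Pool.Agent.Helper26.PE

open Finset

theorem fin_one_a (k0 : ℕ) (hk0 : 1 ≤ k0) (S : ℕ) (hS : 2 ≤ S) (p : ℕ) [Fact p.Prime]
    (hp1 : S ^ (4 * k0 + 4) ≤ p) (H : Subgroup (ZMod p)ˣ) (hH : Stab H)
    (hcard : S ^ 40 ≤ Nat.card H) (q : ℕ) (hq : q.Prime) (hqS : q ≤ S ^ 2) :
    dl p q ≤ 36 / (S : ℝ) ^ 16 := by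
  have hS0 : (0 : ℝ) < (S : ℝ) := by
    have : 0 < S := by omega
    exact_mod_cast this
  have hq0 : 0 < q := hq.pos
  have hp0 : 0 < p := (Fact.out : p.Prime).pos
  have hpS : S ^ 8 ≤ p := le_trans (Nat.pow_le_pow_right (by omega) (by omega)) hp1
  have h4q : 4 * q ≤ p := by
    calc 4 * q ≤ S ^ 2 * S ^ 2 :=
          Nat.mul_le_mul (by nlinarith) hqS
      _ = S ^ 4 := by ring
      _ ≤ S ^ 8 := Nat.pow_le_pow_right (by omega) (by norm_num)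
      _ ≤ p := hpS
  obtain ⟨M, hM⟩ : ∃ M, M = (p - 1) / (2 * q) := ⟨_, rfl⟩
  have hM1 : 2 * q * M < p := by
    rw [hM]
    have := Nat.mul_div_le (p - 1) (2 * q)
    omega
  have hM2 : p ≤ 4 * q * M := by
    have h1 : p - 1 < 2 * q * (M + 1) := by
      rw [hM]
      exact Nat.lt_mul_div_succ (p - 1) (by omega)
    have h2 : 2 * q * (M + 1) = 2 * q * M + 2 * q := by ring
    have h3 : 4 * q * M = 2 * q * M + 2 * q * M := by ring
    omega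
  have hM0 : 0 < M := by
    rcases Nat.eq_zero_or_pos M with h | h
    · rw [h] at hM2
      omega
    · exact h
  have hb := bad_card H hH (M := M) (L := S ^ 11) hq hM0 hM1 (pow_pos (by omega) _)
  unfold dl
  rw [div_le_iff₀ (by exact_mod_cast hp0)]
  refine hb.trans ?_
  rw [mul_comm]
  refine mul_le_mul_of_nonneg_right ?_ (by positivity)
  have hp0' : (0 : ℝ) < (p : ℝ) := by exact_mod_cast hp0
  have hM0' : (0 : ℝ) < (M : ℝ) := by exact_mod_cast hM0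
  have hcard' : (S : ℝ) ^ 40 ≤ ((Nat.card H : ℕ) : ℝ) := by exact_mod_cast hcard
  have h1 : 4 * (((S ^ 11 : ℕ) : ℝ)) ^ 2 / (Nat.card H : ℝ) ≤ 4 / (S : ℝ) ^ 16 := by
    rw [div_le_div_iff₀ (lt_of_lt_of_le (by positivity) hcard') (by positivity)]
    push_cast
    calc 4 * ((S : ℝ) ^ 11) ^ 2 * (S : ℝ) ^ 16 = 4 * (S : ℝ) ^ 38 := by ring
      _ ≤ 4 * (S : ℝ) ^ 40 := by
          have hS1 : (1 : ℝ) ≤ (S : ℝ) := by exact_mod_cast (by omega : 1 ≤ S)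
          have := pow_le_pow_right₀ hS1 (by norm_num : 38 ≤ 40)
          linarith
      _ ≤ 4 * (Nat.card H : ℝ) := by linarith
  have hM2' : (p : ℝ) ≤ 4 * q * M := by exact_mod_cast hM2
  have hqS' : (q : ℝ) ≤ (S : ℝ) ^ 2 := by exact_mod_cast hqS
  have h2 : (p : ℝ) ^ 3 / (2 * (M : ℝ) ^ 3 * (((S ^ 11 : ℕ) : ℝ)) ^ 2) ≤ 32 / (S : ℝ) ^ 16 := by
    rw [div_le_div_iff₀ (by positivity) (by positivity)]
    push_cast
    have h3 : (p : ℝ) ≤ 4 * (S : ℝ) ^ 2 * M := by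
      refine hM2'.trans ?_
      have := mul_le_mul_of_nonneg_right hqS' hM0'.le
      nlinarith
    calc (p : ℝ) ^ 3 * (S : ℝ) ^ 16 ≤ (4 * (S : ℝ) ^ 2 * M) ^ 3 * (S : ℝ) ^ 16 :=
          mul_le_mul_of_nonneg_right (pow_le_pow_left₀ hp0'.le h3 3) (by positivity)
      _ = 32 * (2 * (M : ℝ) ^ 3 * ((S : ℝ) ^ 11) ^ 2) := by ring
  calc _ ≤ 4 / (S : ℝ) ^ 16 + 32 / (S : ℝ) ^ 16 := add_le_add h1 h2
    _ = 36 / (S : ℝ) ^ 16 := by ring

end Pool.Agent.Helper26.PE
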