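import Pool.Agent.Helper26.PE.Fin3a
import Pool.Agent.Helper26.PE.Recip
import Pool.Agent.Helper26.PE.Hyper
import Pool.Agent.Helper26.PE.Siegel

/-!
# PE-Fin3 (second copy): contradiction with Siegel's theorem
-/

set_option autoImplicit false

namespace Pool.Agent.Helper21.PE

open Finset Pool.Agent.Helper26.PE

/-- the set of natural numbers -/
theorem exists_E {p : ℕ} [Fact p.Prime] (χ : DirichletCharacter ℂ p) (s : ℝ) :
    ∃ E : Finset ℕ, (∀ n : ℕ, n ∈ E ↔ 0 < n ∧ n < p ∧ (la n : ℂ) * χ (n : ZMod p) ≠ s) ∧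
      (#E : ℝ) ≤ (Set.ncard {x : ZMod p | x ≠ 0 ∧ (F x : ℂ) * χ x ≠ s} : ℝ) := by
  classical
  obtain ⟨E, hE⟩ : ∃ E : Finset ℕ, E = (range p).filter (fun n : ℕ => 0 < n ∧
    (la n : ℂ) * χ (n : ZMod p) ≠ s) := ⟨_, rfl⟩
  have hmem : ∀ n : ℕ, n ∈ E ↔ 0 < n ∧ n < p ∧ (la n : ℂ) * χ (n : ZMod p) ≠ s := by
    intro n
    rw [hE, mem_filter, mem_range]
    tauto
  refine ⟨E, hmem, ?_⟩
  have hinj : Set.InjOn (fun n : ℕ => (n : ZMod p)) (E : Set ℕ) := by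
    intro a ha b hb hab
    have ha' := (hmem a).1 (Finset.mem_coe.1 ha)
    have hb' := (hmem b).1 (Finset.mem_coe.1 hb)
    have h1 : ((a : ZMod p)).val = ((b : ZMod p)).val := congrArg ZMod.val hab
    rwa [ZMod.val_natCast_of_lt ha'.2.1, ZMod.val_natCast_of_lt hb'.2.1] at h1
  have h1 : #(E.image (fun n : ℕ => (n : ZMod p))) = #E := card_image_of_injOn hinj
  rw [← h1, ← Set.ncard_coe_finset]
  have h2 : ((E.image (fun n : ℕ => (n : ZMod p)) : Finset (ZMod p)) : Set (ZMod p)) ⊆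
      {x : ZMod p | x ≠ 0 ∧ (F x : ℂ) * χ x ≠ s} := by
    intro x hx
    rw [Finset.mem_coe, mem_image] at hx
    obtain ⟨n, hn, rfl⟩ := hx
    obtain ⟨h3, h4, h5⟩ := (hmem n).1 hn
    refine ⟨?_, ?_⟩
    · rw [Ne, ZMod.natCast_eq_zero_iff]
      intro h6
      exact absurd (Nat.le_of_dvd h3 h6) (by omega)
    · rw [F_nat h4]
      exact h5
  exact_mod_cast Set.ncard_le_ncard h2 (Set.toFinite _)

/-- the analytic part, in terms of the sizes -/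
theorem L_le {k0 S p : ℕ} [Fact p.Prime] (hk0 : 1 ≤ k0) (hS : 2 ≤ S)
    (hp1 : S ^ (4 * k0 + 4) ≤ p) (hp2 : p < (S + 1) ^ (4 * k0 + 4))
    {χ : DirichletCharacter ℂ p} (hχ : χ ≠ 1) {s : ℝ} (hs : s = 1 ∨ s = -1) {E : Finset ℕ}
    (hE : ∀ n : ℕ, n ∈ E ↔ 0 < n ∧ n < p ∧ (la n : ℂ) * χ (n : ZMod p) ≠ s)
    (hsc : ∀ t : ℕ, 1 ≤ t → t < p →
      (#(E.filter fun n => n ≤ t) : ℝ) ≤ (S : ℝ) ^ (-(1 / 8) : ℝ) * t) :
    ‖DirichletCharacter.LFunction χ 1‖ ≤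
      (2 + 2 * (2 + (4 * k0 + 4 : ℕ)) + 8 * 4 ^ (k0 + 1) * (1 + (4 * k0 + 4 : ℕ))) *
        (1 + Real.log S) * (S : ℝ) ^ (-(1 / 8) : ℝ) := by
  obtain ⟨n0, hn0⟩ : ∃ n0, n0 = 4 * k0 + 4 := ⟨_, rfl⟩
  rw [← hn0] at hp1 hp2 ⊢
  have hS0 : (0 : ℝ) < (S : ℝ) := by exact_mod_cast (by omega : 0 < S)
  have hS1 : (1 : ℝ) ≤ (S : ℝ) := by exact_mod_cast (by omega : 1 ≤ S)
  obtain ⟨u, hu⟩ : ∃ u : ℝ, u = (S : ℝ) ^ (-(1 / 8) : ℝ) := ⟨_, rfl⟩
  rw [← hu] at hsc ⊢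
  have hu0 : 0 < u := by rw [hu]; exact Real.rpow_pos_of_pos hS0 _
  have hinvu : 1 / (S : ℝ) ≤ u := by
    rw [hu, one_div, ← Real.rpow_neg_one]
    exact Real.rpow_le_rpow_of_exponent_le hS1 (by norm_num)
  have hlS : 0 ≤ Real.log S := Real.log_natCast_nonneg S
  have hp0 : (0 : ℝ) < (p : ℝ) := by exact_mod_cast (Fact.out : p.Prime).pos
  -- sizes
  have hbig : S ^ (3 * k0 + 4) < S ^ n0 := Nat.pow_lt_pow_right (by omega) (by omega)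
  obtain ⟨x, hx⟩ : ∃ x, x = p - 1 := ⟨_, rfl⟩
  have hxD : S ^ (3 * k0 + 4) ≤ x := by omega
  have hSx : S ≤ x := le_trans (by
    calc S = S ^ 1 := (pow_one S).symm
      _ ≤ S ^ (3 * k0 + 4) := Nat.pow_le_pow_right (by omega) (by omega)) hxD
  have hx1 : 1 ≤ x := by omega
  have hxp : x < p := by omega
  have hx0 : (0 : ℝ) < (x : ℝ) := by exact_mod_cast hx1
  obtain ⟨D, hD⟩ : ∃ D, D = S ^ (3 * k0 + 3) := ⟨_, rfl⟩
  have hDS : D * S ≤ x := by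
    rw [hD, ← pow_succ]
    exact hxD
  have hD1 : 1 ≤ D := by rw [hD]; exact Nat.one_le_pow _ _ (by omega)
  have hDx : D ≤ x := le_trans (Nat.le_mul_of_pos_right D (by omega)) hDS
  have hD0 : (0 : ℝ) < (D : ℝ) := by exact_mod_cast hD1
  obtain ⟨A, hA⟩ : ∃ A : ℝ, A = 2 * √(p : ℝ) * (1 + Real.log p) := ⟨_, rfl⟩
  have h1 := hyper hχ (A := A) (fun a b => by rw [hA]; exact pv χ hχ a b) hD1 hDx
  have h2 := ones_le (χ := χ) hs hE hxp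
  have h3 := sum_inv (E := E) hx1 hu0.le (fun n hn => ((hE n).1 hn).1)
    (fun t ht htx => hsc t ht (by omega))
  -- logarithms
  have hlp : Real.log p ≤ n0 * (1 + Real.log S) := by
    have h4 : (p : ℝ) ≤ ((2 : ℝ) * S) ^ n0 := by
      have h5 : p ≤ (2 * S) ^ n0 := hp2.le.trans (Nat.pow_le_pow_left (by omega) _)
      exact_mod_cast h5
    calc Real.log p ≤ Real.log (((2 : ℝ) * S) ^ n0) := Real.log_le_log hp0 h4
      _ = n0 * (Real.log 2 + Real.log S) := by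
          rw [Real.log_pow, Real.log_mul (by norm_num) hS0.ne']
      _ ≤ n0 * (1 + Real.log S) := by
          refine mul_le_mul_of_nonneg_left ?_ (Nat.cast_nonneg _)
          have : Real.log 2 ≤ 1 := by
            have := Real.log_two_lt_d9
            linarith
          linarith
  have hlx : Real.log x ≤ Real.log p := Real.log_le_log hx0 (by exact_mod_cast hxp.le)
  have hlp0 : 0 ≤ Real.log p := Real.log_natCast_nonneg p
  -- the square root of p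
  have hsq : √(p : ℝ) ≤ 4 ^ (k0 + 1) * (S : ℝ) ^ (2 * k0 + 2) := by
    have h4 : (p : ℝ) ≤ (4 ^ (k0 + 1) * (S : ℝ) ^ (2 * k0 + 2)) ^ 2 := by
      have h5 : p ≤ (4 ^ (k0 + 1) * S ^ (2 * k0 + 2)) ^ 2 := by
        calc p ≤ (2 * S) ^ n0 := hp2.le.trans (Nat.pow_le_pow_left (by omega) _)
          _ = (4 ^ (k0 + 1) * S ^ (2 * k0 + 2)) ^ 2 := by
              rw [hn0, show 4 * k0 + 4 = (2 * k0 + 2) * 2 by ring, pow_mul, mul_pow]
              congr 1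
              rw [show (4 : ℕ) = 2 ^ 2 by norm_num, ← pow_mul]
              congr 2
              
      exact_mod_cast h5
    exact Real.sqrt_le_iff.2 ⟨by positivity, h4⟩
  -- the four terms
  have t1 : √(x : ℝ) / x ≤ u := by
    rw [Real.sqrt_div_self', hu, Real.rpow_neg hS0.le, ← one_div]
    refine one_div_le_one_div_of_le (Real.rpow_pos_of_pos hS0 _) ?_
    rw [Real.sqrt_eq_rpow]
    calc (S : ℝ) ^ (1 / 8 : ℝ) ≤ (S : ℝ) ^ (1 / 2 : ℝ) :=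
          Real.rpow_le_rpow_of_exponent_le hS1 (by norm_num)
      _ ≤ (x : ℝ) ^ (1 / 2 : ℝ) :=
          Real.rpow_le_rpow hS0.le (by exact_mod_cast hSx) (by norm_num)
  have t2 : (D : ℝ) / x ≤ u := by
    refine le_trans ?_ hinvu
    rw [div_le_div_iff₀ hx0 hS0, one_mul]
    exact_mod_cast hDS
  have t3 : 4 * A / D ≤ 8 * 4 ^ (k0 + 1) * (1 + n0) * (1 + Real.log S) * u := by
    have h4 : A ≤ 2 * (4 ^ (k0 + 1) * (S : ℝ) ^ (2 * k0 + 2)) *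
        ((1 + n0) * (1 + Real.log S)) := by
      rw [hA]
      refine mul_le_mul (by linarith) ?_ (by linarith) (by positivity)
      nlinarith
    have h5 : (S : ℝ) ^ (2 * k0 + 2) / D ≤ u := by
      refine le_trans ?_ hinvu
      rw [div_le_div_iff₀ hD0 hS0, one_mul, hD]
      push_cast
      rw [← pow_succ]
      exact pow_le_pow_right₀ hS1 (by omega)
    calc 4 * A / D ≤ 4 * (2 * (4 ^ (k0 + 1) * (S : ℝ) ^ (2 * k0 + 2)) *
        ((1 + n0) * (1 + Real.log S))) / D := by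
          gcongr
      _ = 8 * 4 ^ (k0 + 1) * (1 + n0) * (1 + Real.log S) * ((S : ℝ) ^ (2 * k0 + 2) / D) := by
          ring
      _ ≤ _ := mul_le_mul_of_nonneg_left h5 (by positivity)
  have t4 : 2 * (u * (2 + Real.log x)) ≤ 2 * (2 + n0) * (1 + Real.log S) * u := by
    have h4 : 2 + Real.log x ≤ (2 + n0) * (1 + Real.log S) := by nlinarith
    nlinarith
  -- assembly
  have h6 : x * ‖DirichletCharacter.LFunction χ 1‖ ≤
      √(x : ℝ) + 2 * x * (u * (2 + Real.log x)) + (D + 4 * x * A / D) := by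
    have h7 : ‖(x : ℂ) * DirichletCharacter.LFunction χ 1‖ =
        x * ‖DirichletCharacter.LFunction χ 1‖ := by
      rw [norm_mul, Complex.norm_natCast]
    have h8 : ‖(x : ℂ) * DirichletCharacter.LFunction χ 1‖ ≤
        ‖∑ n ∈ Icc 1 x, ∑ d ∈ n.divisors, χ (d : ZMod p)‖ +
        ‖(∑ n ∈ Icc 1 x, ∑ d ∈ n.divisors, χ (d : ZMod p)) -
          x * DirichletCharacter.LFunction χ 1‖ := by
      have h9 := norm_sub_le (∑ n ∈ Icc 1 x, ∑ d ∈ n.divisors, χ (d : ZMod p))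
        ((∑ n ∈ Icc 1 x, ∑ d ∈ n.divisors, χ (d : ZMod p)) -
          x * DirichletCharacter.LFunction χ 1)
      rwa [sub_sub_cancel] at h9
    rw [← h7]
    refine h8.trans (add_le_add (h2.trans ?_) h1)
    refine add_le_add le_rfl ?_
    exact mul_le_mul_of_nonneg_left h3 (by positivity)
  have h7 : ‖DirichletCharacter.LFunction χ 1‖ ≤
      √(x : ℝ) / x + 2 * (u * (2 + Real.log x)) + (D / x + 4 * A / D) := by
    have h8 : ‖DirichletCharacter.LFunction χ 1‖ ≤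
        (√(x : ℝ) + 2 * x * (u * (2 + Real.log x)) + (D + 4 * x * A / D)) / x := by
      rw [le_div_iff₀ hx0]
      linarith
    refine h8.trans (le_of_eq ?_)
    field_simp
  have h9 : u ≤ (1 + Real.log S) * u := by nlinarith
  calc ‖DirichletCharacter.LFunction χ 1‖ ≤ _ := h7
    _ ≤ u + 2 * (2 + n0) * (1 + Real.log S) * u +
        (u + 8 * 4 ^ (k0 + 1) * (1 + n0) * (1 + Real.log S) * u) := by
        gcongr
    _ ≤ (1 + Real.log S) * u + 2 * (2 + n0) * (1 + Real.log S) * u +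
        ((1 + Real.log S) * u + 8 * 4 ^ (k0 + 1) * (1 + n0) * (1 + Real.log S) * u) := by
        gcongr
    _ = _ := by ring

theorem fin_three (k0 : ℕ) (hk0 : 1 ≤ k0) : ∃ S0 : ℕ, ∀ S : ℕ, S0 ≤ S →
    ∀ (p : ℕ) [Fact p.Prime], S ^ (4 * k0 + 4) ≤ p → p < (S + 1) ^ (4 * k0 + 4) →
    ∀ (χ : DirichletCharacter ℂ p) (s : ℝ), χ ^ 2 = 1 → χ ≠ 1 →
      ∑ q ∈ (Icc 1 (S ^ (2 * k0))).filter Nat.Prime, ‖χ (q : ZMod p) + 1‖ ^ 2 / q ≤
        (S : ℝ) ^ (-(1 / 4) : ℝ) → (s = 1 ∨ s = -1) →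
      (Set.ncard {x : ZMod p | x ≠ 0 ∧ (F x : ℂ) * χ x ≠ s} : ℝ) ≤
        4 * (S : ℝ) ^ (-(1 / 4) : ℝ) * p → False := by
  obtain ⟨S1, hS1⟩ := fin_scale k0 hk0
  obtain ⟨c, hc, hsieg⟩ := siegel (1 / (64 * (4 * k0 + 4 : ℕ))) (by positivity)
  obtain ⟨C1, hC1⟩ : ∃ C1 : ℝ, C1 = 2 + 2 * (2 + (4 * k0 + 4 : ℕ)) +
    8 * 4 ^ (k0 + 1) * (1 + (4 * k0 + 4 : ℕ)) := ⟨_, rfl⟩
  have hC10 : 0 < C1 := by rw [hC1]; positivity
  refine ⟨max S1 (max 2 (⌈(33 * C1 / c) ^ 16⌉₊ + 1)), ?_⟩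
  intro S hS p hp hp1 hp2 χ s hχ2 hχ hsum hs hcard
  have hSa : S1 ≤ S := le_trans (le_max_left _ _) hS
  have hSb : 2 ≤ S := le_trans (le_trans (le_max_left _ _) (le_max_right _ _)) hS
  have hSc : ⌈(33 * C1 / c) ^ 16⌉₊ + 1 ≤ S :=
    le_trans (le_trans (le_max_right _ _) (le_max_right _ _)) hS
  obtain ⟨E, hE, hEc⟩ := exists_E χ s
  have hsc := hS1 S hSa p hp1 hp2 χ s E hχ2 hsum hE (hEc.trans hcard)
  have h1 := L_le hk0 hSb hp1 hp2 hχ hs hE hsc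
  rw [← hC1] at h1
  have h2 := hsieg p χ hχ hχ2
  have hSp : (0 : ℝ) < (S : ℝ) := by exact_mod_cast (by omega : 0 < S)
  have hS1' : (1 : ℝ) ≤ (S : ℝ) := by exact_mod_cast (by omega : 1 ≤ S)
  have hp0 : (0 : ℝ) < (p : ℝ) := by exact_mod_cast (Fact.out : p.Prime).pos
  -- lower bound
  have h3 : (S : ℝ) ^ (-(1 / 32) : ℝ) ≤ (p : ℝ) ^ (-(1 / (64 * (4 * k0 + 4 : ℕ))) : ℝ) := by
    have h4 : (p : ℝ) ≤ (S : ℝ) ^ ((2 * (4 * k0 + 4 : ℕ) : ℝ)) := by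
      have h5 : p ≤ (S ^ 2) ^ (4 * k0 + 4) :=
        hp2.le.trans (Nat.pow_le_pow_left (by nlinarith) _)
      rw [← pow_mul] at h5
      rw [show ((2 * (4 * k0 + 4 : ℕ) : ℝ)) = ((2 * (4 * k0 + 4) : ℕ) : ℝ) by push_cast; ring,
        Real.rpow_natCast]
      exact_mod_cast h5
    have hn : (0 : ℝ) < ((4 * k0 + 4 : ℕ) : ℝ) := by positivity
    calc (S : ℝ) ^ (-(1 / 32) : ℝ) =
        ((S : ℝ) ^ ((2 * (4 * k0 + 4 : ℕ) : ℝ))) ^ (-(1 / (64 * (4 * k0 + 4 : ℕ))) : ℝ) := by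
          rw [← Real.rpow_mul hSp.le]
          congr 1
          field_simp
          norm_num
      _ ≤ _ := Real.rpow_le_rpow_of_nonpos hp0 h4 (by
          rw [neg_nonpos]
          positivity)
  -- upper bound
  have h4 : 1 + Real.log S ≤ 33 * (S : ℝ) ^ (1 / 32 : ℝ) := by
    have h5 := Real.log_natCast_le_rpow_div S (show (0 : ℝ) < 1 / 32 by norm_num)
    have h6 : (1 : ℝ) ≤ (S : ℝ) ^ (1 / 32 : ℝ) := Real.one_le_rpow hS1' (by norm_num)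
    have h7 : (S : ℝ) ^ (1 / 32 : ℝ) / (1 / 32) = 32 * (S : ℝ) ^ (1 / 32 : ℝ) := by ring
    linarith
  have h5 : c * (S : ℝ) ^ (-(1 / 32) : ℝ) ≤
      33 * C1 * ((S : ℝ) ^ (1 / 32 : ℝ) * (S : ℝ) ^ (-(1 / 8) : ℝ)) := by
    calc c * (S : ℝ) ^ (-(1 / 32) : ℝ) ≤ c * (p : ℝ) ^ (-(1 / (64 * (4 * k0 + 4 : ℕ))) : ℝ) :=
          mul_le_mul_of_nonneg_left h3 hc.le
      _ ≤ ‖DirichletCharacter.LFunction χ 1‖ := h2
      _ ≤ C1 * (1 + Real.log S) * (S : ℝ) ^ (-(1 / 8) : ℝ) := h1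
      _ ≤ C1 * (33 * (S : ℝ) ^ (1 / 32 : ℝ)) * (S : ℝ) ^ (-(1 / 8) : ℝ) := by
          gcongr
      _ = _ := by ring
  have h6 : c * (S : ℝ) ^ (1 / 16 : ℝ) ≤ 33 * C1 := by
    have h7 := mul_le_mul_of_nonneg_right h5
      (Real.rpow_nonneg hSp.le (3 / 32 : ℝ))
    have h8 : c * (S : ℝ) ^ (-(1 / 32) : ℝ) * (S : ℝ) ^ (3 / 32 : ℝ) =
        c * (S : ℝ) ^ (1 / 16 : ℝ) := by
      rw [mul_assoc, ← Real.rpow_add hSp]
      norm_num
    have h9 : 33 * C1 * ((S : ℝ) ^ (1 / 32 : ℝ) * (S : ℝ) ^ (-(1 / 8) : ℝ)) *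
        (S : ℝ) ^ (3 / 32 : ℝ) = 33 * C1 := by
      rw [mul_assoc, ← Real.rpow_add hSp, ← Real.rpow_add hSp]
      norm_num
    rwa [h8, h9] at h7
  have h7 : (S : ℝ) ^ (1 / 16 : ℝ) ≤ 33 * C1 / c := by
    rw [le_div_iff₀ hc]
    linarith
  have h8 : (S : ℝ) ≤ (33 * C1 / c) ^ 16 := by
    calc (S : ℝ) = ((S : ℝ) ^ (1 / 16 : ℝ)) ^ 16 := by
          rw [← Real.rpow_natCast, ← Real.rpow_mul hSp.le]
          norm_num
      _ ≤ _ := pow_le_pow_left₀ (Real.rpow_nonneg hSp.le _) h7 16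
  have h9 : (S : ℝ) ≤ ((⌈(33 * C1 / c) ^ 16⌉₊ : ℕ) : ℝ) := h8.trans (Nat.le_ceil _)
  have h10 : S ≤ ⌈(33 * C1 / c) ^ 16⌉₊ := by exact_mod_cast h9
  omega

end Pool.Agent.Helper21.PE
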