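import Pool.Agent.Helper26.PE.Scale
import Pool.Agent.Helper53.KM.G13

/-!
# PE-Fin3a (second copy)
-/

set_option autoImplicit false

namespace Pool.Agent.Helper21.PE

open Finset Pool.Agent.Helper26.PE

theorem fin_scale (k0 : ℕ) (hk0 : 1 ≤ k0) : ∃ S0 : ℕ, ∀ S : ℕ, S0 ≤ S →
    ∀ (p : ℕ) [Fact p.Prime], S ^ (4 * k0 + 4) ≤ p → p < (S + 1) ^ (4 * k0 + 4) →
    ∀ (χ : DirichletCharacter ℂ p) (s : ℝ) (E : Finset ℕ), χ ^ 2 = 1 →
      ∑ q ∈ (Icc 1 (S ^ (2 * k0))).filter Nat.Prime, ‖χ (q : ZMod p) + 1‖ ^ 2 / q ≤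
        (S : ℝ) ^ (-(1 / 4) : ℝ) →
      (∀ n : ℕ, n ∈ E ↔ 0 < n ∧ n < p ∧ (la n : ℂ) * χ (n : ZMod p) ≠ s) →
      (#E : ℝ) ≤ 4 * (S : ℝ) ^ (-(1 / 4) : ℝ) * p →
      ∀ t : ℕ, 1 ≤ t → t < p →
        (#(E.filter fun n => n ≤ t) : ℝ) ≤ (S : ℝ) ^ (-(1 / 8) : ℝ) * t := by
  obtain ⟨n0, hn0⟩ : ∃ n0, n0 = 4 * k0 + 4 := ⟨_, rfl⟩
  rw [← hn0]
  have hn0' : 8 ≤ n0 := by omega
  obtain ⟨J, hJ⟩ : ∃ J, J + 1 = 64 * n0 := ⟨64 * n0 - 1, by omega⟩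
  have hJ0 : 0 < J := by omega
  have hnR : (0 : ℝ) < (n0 : ℝ) := by exact_mod_cast (by omega : 0 < n0)
  have hJR : (0 : ℝ) < (J : ℝ) := by exact_mod_cast hJ0
  obtain ⟨C, hC1, hdiv⟩ := Pool.Agent.M17.Helper89.SLE.divisor_bound (1 / (128 * n0 * J))
    (by positivity)
  have hC0 : 0 < C := by linarith
  obtain ⟨B, hB⟩ : ∃ B : ℝ, B = 4 * (2 * C) ^ J := ⟨_, rfl⟩
  have hB0 : 0 < B := by rw [hB]; positivity
  refine ⟨max (2 ^ 32) (⌈B ^ (64 / 3 : ℝ)⌉₊), ?_⟩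
  intro S hS p hp hp1 hp2 χ s E hχ hsum hE hcard t ht htp
  have hSa : 2 ^ 32 ≤ S := le_trans (le_max_left _ _) hS
  have hSb : ⌈B ^ (64 / 3 : ℝ)⌉₊ ≤ S := le_trans (le_max_right _ _) hS
  have hS2 : 2 ≤ S := le_trans (by norm_num) hSa
  have hS0 : (0 : ℝ) < (S : ℝ) := by exact_mod_cast (by omega : 0 < S)
  have hS1 : (1 : ℝ) ≤ (S : ℝ) := by exact_mod_cast (by omega : 1 ≤ S)
  have hp0 : (0 : ℝ) < (p : ℝ) := by exact_mod_cast hp.out.pos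
  have hSp : S < p := by
    calc S = S ^ 1 := (pow_one S).symm
      _ < S ^ n0 := Nat.pow_lt_pow_right (by omega) (by omega)
      _ ≤ p := hp1
  -- S ^ (1/32) ≥ 2
  have h32 : (2 : ℝ) ≤ (S : ℝ) ^ (1 / 32 : ℝ) := by
    have h1 : ((2 : ℝ) ^ (32 : ℕ)) ≤ (S : ℝ) := by exact_mod_cast hSa
    calc (2 : ℝ) = ((2 : ℝ) ^ (32 : ℕ)) ^ (1 / 32 : ℝ) := by
          rw [← Real.rpow_natCast, ← Real.rpow_mul (by norm_num)]
          norm_num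
      _ ≤ _ := Real.rpow_le_rpow (by positivity) h1 (by norm_num)
  have h16 : (S : ℝ) ^ (1 / 16 : ℝ) = (S : ℝ) ^ (1 / 32 : ℝ) * (S : ℝ) ^ (1 / 32 : ℝ) := by
    rw [← Real.rpow_add hS0]
    norm_num
  obtain ⟨N, hN⟩ : ∃ N, N = ⌊(S : ℝ) ^ (1 / 16 : ℝ)⌋₊ := ⟨_, rfl⟩
  have hNle : (N : ℝ) ≤ (S : ℝ) ^ (1 / 16 : ℝ) := by
    rw [hN]
    exact Nat.floor_le (by positivity)
  have hNge : (S : ℝ) ^ (1 / 32 : ℝ) ≤ (N : ℝ) := by
    have h1 : (S : ℝ) ^ (1 / 16 : ℝ) < (N : ℝ) + 1 := by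
      rw [hN]
      exact Nat.lt_floor_add_one _
    rw [h16] at h1
    nlinarith
  have hN2 : 2 ≤ N := by exact_mod_cast h32.trans hNge
  have hNS : (S : ℝ) ^ (1 / 16 : ℝ) ≤ (S : ℝ) := by
    calc (S : ℝ) ^ (1 / 16 : ℝ) ≤ (S : ℝ) ^ (1 : ℝ) :=
          Real.rpow_le_rpow_of_exponent_le hS1 (by norm_num)
      _ = S := Real.rpow_one _
  have hNS' : N ≤ S := by exact_mod_cast hNle.trans hNS
  have hNp : N < p := by omega
  have hpS : (p : ℝ) ≤ (S : ℝ) ^ (2 * n0) := by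
    have h5 : p ≤ (S ^ 2) ^ n0 := hp2.le.trans (Nat.pow_le_pow_left (by nlinarith) _)
    rw [← pow_mul] at h5
    exact_mod_cast h5
  -- the small primes
  have hgood : ∀ q : ℕ, q.Prime → q ≤ N → χ (q : ZMod p) = -1 := by
    intro q hq hqN
    have hqp : q < p := by omega
    have hq0 : (q : ZMod p) ≠ 0 := by
      rw [Ne, ZMod.natCast_eq_zero_iff]
      intro h
      exact absurd (Nat.le_of_dvd hq.pos h) (by omega)
    have h1 : χ (q : ZMod p) ^ 2 = 1 := by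
      have h2 : (χ ^ 2) (q : ZMod p) = 1 := by
        rw [hχ, MulChar.one_apply (isUnit_iff_ne_zero.2 hq0)]
      rwa [MulChar.pow_apply' χ (by norm_num)] at h2
    rcases (sq_eq_one_iff.1 h1) with h | h
    · exfalso
      have hmem : q ∈ (Icc 1 (S ^ (2 * k0))).filter Nat.Prime := by
        rw [mem_filter, mem_Icc]
        refine ⟨⟨hq.one_le, ?_⟩, hq⟩
        calc q ≤ S := by omega
          _ = S ^ 1 := (pow_one S).symm
          _ ≤ S ^ (2 * k0) := Nat.pow_le_pow_right (by omega) (by omega)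
      have h3 : ‖χ (q : ZMod p) + 1‖ ^ 2 / q ≤ (S : ℝ) ^ (-(1 / 4) : ℝ) :=
        (Finset.single_le_sum (f := fun q : ℕ => ‖χ (q : ZMod p) + 1‖ ^ 2 / (q : ℝ))
          (fun i _ => by positivity) hmem).trans hsum
      rw [h] at h3
      have h4 : ‖(1 : ℂ) + 1‖ ^ 2 = 4 := by
        rw [show (1 : ℂ) + 1 = 2 by norm_num, Complex.norm_two]
        norm_num
      rw [h4] at h3
      have hqR : (0 : ℝ) < (q : ℝ) := by exact_mod_cast hq.pos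
      rw [div_le_iff₀ hqR] at h3
      have h5 : (q : ℝ) ≤ (S : ℝ) ^ (1 / 16 : ℝ) := (by exact_mod_cast hqN : (q : ℝ) ≤ N).trans hNle
      have h6 : (S : ℝ) ^ (-(1 / 4) : ℝ) * (S : ℝ) ^ (1 / 16 : ℝ) ≤ 1 := by
        rw [← Real.rpow_add hS0]
        exact Real.rpow_le_one_of_one_le_of_nonpos hS1 (by norm_num)
      have h7 : (S : ℝ) ^ (-(1 / 4) : ℝ) * q ≤ (S : ℝ) ^ (-(1 / 4) : ℝ) * (S : ℝ) ^ (1 / 16 : ℝ) :=
        mul_le_mul_of_nonneg_left h5 (Real.rpow_nonneg hS0.le _)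
      linarith
    · exact h
  -- divisors
  obtain ⟨a, ha⟩ : ∃ a : ℝ, a = 1 / (128 * n0 * J) := ⟨_, rfl⟩
  rw [← ha] at hdiv
  have ha0 : 0 < a := by rw [ha]; positivity
  have hpa1 : 1 ≤ (p : ℝ) ^ a :=
    Real.one_le_rpow (by exact_mod_cast hp.out.one_le) ha0.le
  obtain ⟨D, hD⟩ : ∃ D, D = ⌈C * (p : ℝ) ^ a⌉₊ := ⟨_, rfl⟩
  have hCp : 1 ≤ C * (p : ℝ) ^ a := by nlinarith
  have hD1 : 1 ≤ D := by
    rw [hD, Nat.one_le_ceil_iff]
    linarith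
  have hDle : (D : ℝ) ≤ 2 * C * (p : ℝ) ^ a := by
    have h1 : (D : ℝ) < C * (p : ℝ) ^ a + 1 := by
      rw [hD]
      exact Nat.ceil_lt_add_one (by linarith)
    linarith
  have hdiv' : ∀ n : ℕ, 0 < n → n < p → #n.divisors ≤ D := by
    intro n hn hnp
    have h1 : ((#n.divisors : ℕ) : ℝ) ≤ C * (p : ℝ) ^ a := (hdiv n hn).trans
      (mul_le_mul_of_nonneg_left (Real.rpow_le_rpow (Nat.cast_nonneg _)
        (by exact_mod_cast hnp.le) ha0.le) hC0.le)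
    have h2 : ((#n.divisors : ℕ) : ℝ) ≤ (D : ℝ) := by
      rw [hD]
      exact h1.trans (Nat.le_ceil _)
    exact_mod_cast h2
  have hpJ : p ≤ N ^ (J + 1) := by
    have h1 : (p : ℝ) ≤ (N : ℝ) ^ (J + 1) := by
      calc (p : ℝ) ≤ (S : ℝ) ^ (2 * n0) := hpS
        _ = ((S : ℝ) ^ (1 / 32 : ℝ)) ^ (J + 1) := by
            rw [hJ, ← Real.rpow_natCast, ← Real.rpow_natCast, ← Real.rpow_mul hS0.le]
            congr 1
            push_cast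
            ring
        _ ≤ _ := pow_le_pow_left₀ (Real.rpow_nonneg hS0.le _) hNge _
    exact_mod_cast h1
  have h1 := scale hE hN2 hNp hgood hD1 hdiv' (κ := 4 * (S : ℝ) ^ (-(1 / 4) : ℝ))
    (by positivity) hcard hpJ t ht htp
  refine h1.trans (mul_le_mul_of_nonneg_right ?_ (Nat.cast_nonneg t))
  -- the numbers
  have hDJ : (D : ℝ) ^ J ≤ (2 * C) ^ J * (S : ℝ) ^ (1 / 64 : ℝ) := by
    calc (D : ℝ) ^ J ≤ (2 * C * (p : ℝ) ^ a) ^ J := pow_le_pow_left₀ (Nat.cast_nonneg _) hDle _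
      _ = (2 * C) ^ J * ((p : ℝ) ^ a) ^ J := mul_pow _ _ _
      _ ≤ (2 * C) ^ J * (S : ℝ) ^ (1 / 64 : ℝ) := by
          refine mul_le_mul_of_nonneg_left ?_ (by positivity)
          calc ((p : ℝ) ^ a) ^ J = (p : ℝ) ^ (a * J) := by
                rw [← Real.rpow_natCast, ← Real.rpow_mul hp0.le]
            _ ≤ ((S : ℝ) ^ (2 * n0)) ^ (a * J) :=
                Real.rpow_le_rpow hp0.le hpS (by positivity)
            _ = (S : ℝ) ^ (1 / 64 : ℝ) := by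
                rw [← Real.rpow_natCast, ← Real.rpow_mul hS0.le, ha]
                congr 1
                push_cast
                field_simp
                norm_num
  have hBS : B ≤ (S : ℝ) ^ (3 / 64 : ℝ) := by
    have h2 : B ^ (64 / 3 : ℝ) ≤ (S : ℝ) := (Nat.le_ceil _).trans (by exact_mod_cast hSb)
    calc B = (B ^ (64 / 3 : ℝ)) ^ (3 / 64 : ℝ) := by
          rw [← Real.rpow_mul hB0.le]
          norm_num
      _ ≤ _ := Real.rpow_le_rpow (by positivity) h2 (by norm_num)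
  calc (D : ℝ) ^ J * N * (4 * (S : ℝ) ^ (-(1 / 4) : ℝ)) ≤
      ((2 * C) ^ J * (S : ℝ) ^ (1 / 64 : ℝ)) * (S : ℝ) ^ (1 / 16 : ℝ) *
        (4 * (S : ℝ) ^ (-(1 / 4) : ℝ)) := by
        gcongr
    _ = B * ((S : ℝ) ^ (1 / 64 : ℝ) * (S : ℝ) ^ (1 / 16 : ℝ) * (S : ℝ) ^ (-(1 / 4) : ℝ)) := by
        rw [hB]
        ring
    _ = B * (S : ℝ) ^ (-(11 / 64) : ℝ) := by
        rw [← Real.rpow_add hS0, ← Real.rpow_add hS0]
        norm_num
    _ ≤ (S : ℝ) ^ (3 / 64 : ℝ) * (S : ℝ) ^ (-(11 / 64) : ℝ) :=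
        mul_le_mul_of_nonneg_right hBS (Real.rpow_nonneg hS0.le _)
    _ = (S : ℝ) ^ (-(1 / 8) : ℝ) := by
        rw [← Real.rpow_add hS0]
        norm_num

end Pool.Agent.Helper21.PE
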